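import Mathlib

/-!
# MP_22c17e_co : quadratic growth of `N(r, L)` under a primitive linear relation (Q1, full answer)

For every field `F` and every finite `L` in `F` without `0` which admits a primitive linear
relation, the largest size `N r L` of an `L`-matrix of rank at most `r` is at least `c * r ^ 2`
for all `r ≥ r0`.
-/

namespace Pool.Agent.Results.MP_22c17e_co.PrimitiveQuadratic

open Finset

/-- `M` is an `L`-matrix: zero diagonal, all off-diagonal entries in `L`. -/
def IsLMatrix {F : Type*} [Field F] (L : Finset F) {n : ℕ} (M : Matrix (Fin n) (Fin n) F) : Prop :=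
  (∀ i, M i i = 0) ∧ ∀ i j, i ≠ j → M i j ∈ L

/-- `N r L` is the largest `n` such that there is an `n × n` `L`-matrix of rank at most `r`
(the set of such `n` is bounded when `0 ∉ L`, see `bddAbove_sizes`). -/
noncomputable def N {F : Type*} [Field F] (r : ℕ) (L : Finset F) : ℕ :=
  sSup {n : ℕ | ∃ M : Matrix (Fin n) (Fin n) F, IsLMatrix L M ∧ M.rank ≤ r}

/-- `L` admits a primitive linear relation: integers `A a` (`a ∈ L`) with
`∑ A a * a = 0` in `F` and `∑ A a = 1`. -/
def HasPrimitiveRelation {F : Type*} [Field F] (L : Finset F) : Prop :=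
  ∃ A : F → ℤ, ∑ a ∈ L, (A a : F) * a = 0 ∧ ∑ a ∈ L, A a = 1

/-! ### Low rank factorisations -/

/-- `M` factors through an index set of size at most `s`. -/
def LR {R : Type*} [CommRing R] {P : Type} (s : ℕ) (M : P → P → R) : Prop :=
  ∃ (I : Type) (_ : Fintype I), Fintype.card I ≤ s ∧
    ∃ (X : P → I → R) (Y : I → P → R), ∀ p q, M p q = ∑ i, X p i * Y i q

section LRlemmas

variable {R : Type*} [CommRing R] {P Q : Type}

lemma LR.mono {s t : ℕ} {M : P → P → R} (h : LR s M) (hst : s ≤ t) : LR t M := by
  obtain ⟨I, fI, hI, X, Y, hXY⟩ := h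
  exact ⟨I, fI, hI.trans hst, X, Y, hXY⟩

lemma LR.congr {s : ℕ} {M M' : P → P → R} (h : LR s M) (hM : ∀ p q, M' p q = M p q) :
    LR s M' := by
  obtain ⟨I, fI, hI, X, Y, hXY⟩ := h
  exact ⟨I, fI, hI, X, Y, fun p q => by rw [hM, hXY]⟩

lemma LR.of_fun {V : Type} [Fintype V] (f : P → V) (G : V → P → R) :
    LR (Fintype.card V) (fun p q => G (f p) q) := by
  classical
  refine ⟨V, inferInstance, le_rfl, fun p v => if f p = v then 1 else 0, G, ?_⟩
  intro p q
  simp

lemma LR.add {s t : ℕ} {M M' : P → P → R} (h : LR s M) (h' : LR t M') :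
    LR (s + t) (fun p q => M p q + M' p q) := by
  obtain ⟨I, fI, hI, X, Y, hXY⟩ := h
  obtain ⟨J, fJ, hJ, X', Y', hXY'⟩ := h'
  refine ⟨I ⊕ J, inferInstance, ?_, fun p => Sum.elim (X p) (X' p), Sum.elim Y Y', ?_⟩
  · rw [Fintype.card_sum]; omega
  · intro p q
    rw [Fintype.sum_sum_type]
    simp [hXY, hXY']

lemma LR.smul {s : ℕ} {M : P → P → R} (h : LR s M) (a : R) :
    LR s (fun p q => a * M p q) := by
  obtain ⟨I, fI, hI, X, Y, hXY⟩ := h
  refine ⟨I, fI, hI, fun p i => a * X p i, Y, ?_⟩
  intro p q
  simp only [hXY, Finset.mul_sum]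
  exact Finset.sum_congr rfl fun i _ => by ring

lemma LR.zero : LR 0 (fun _ _ : P => (0 : R)) := by
  refine ⟨Empty, inferInstance, by simp, fun _ => Empty.elim, Empty.elim, ?_⟩
  intro p q; simp

lemma LR.sum {ι : Type*} {s : ℕ} (t : Finset ι) {M : ι → P → P → R}
    (h : ∀ i ∈ t, LR s (M i)) : LR (t.card * s) (fun p q => ∑ i ∈ t, M i p q) := by
  classical
  induction t using Finset.induction_on with
  | empty => simpa using (LR.zero (P := P) (R := R))
  | insert i t hi ih =>
    have h1 := (h i (Finset.mem_insert_self i t)).add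
      (ih fun j hj => h j (Finset.mem_insert_of_mem hj))
    refine (h1.mono ?_).congr ?_
    · rw [Finset.card_insert_of_notMem hi]; nlinarith
    · intro p q
      rw [Finset.sum_insert hi]

lemma LR.kron {s t : ℕ} {M : P → P → R} {M' : Q → Q → R} (h : LR s M) (h' : LR t M') :
    LR (s * t) (fun p q : P × Q => M p.1 q.1 * M' p.2 q.2) := by
  obtain ⟨I, fI, hI, X, Y, hXY⟩ := h
  obtain ⟨J, fJ, hJ, X', Y', hXY'⟩ := h'
  refine ⟨I × J, inferInstance, ?_, fun p i => X p.1 i.1 * X' p.2 i.2,
    fun i q => Y i.1 q.1 * Y' i.2 q.2, ?_⟩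
  · rw [Fintype.card_prod]; exact Nat.mul_le_mul hI hJ
  · intro p q
    simp only
    rw [hXY, hXY', Finset.sum_mul_sum, Fintype.sum_prod_type]
    refine Finset.sum_congr rfl fun i _ => Finset.sum_congr rfl fun j _ => ?_
    ring

lemma LR.cast {F : Type*} [Field F] {s : ℕ} {M : P → P → ℤ} (h : LR s M) :
    LR s (fun p q => ((M p q : ℤ) : F)) := by
  obtain ⟨I, fI, hI, X, Y, hXY⟩ := h
  refine ⟨I, fI, hI, fun p i => (X p i : F), fun i q => (Y i q : F), ?_⟩
  intro p q
  simp only [hXY]; push_cast; rfl

end LRlemmas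

/-! ### Coloured structures -/

/-- The matrix of the colour class `e`, with `A e` put on the diagonal. -/
def Rm {P E : Type} [DecidableEq P] [DecidableEq E] (A : E → ℤ) (c : P → P → E) (e : E)
    (p q : P) : ℤ := if p = q then A e else if c p q = e then 1 else 0

/-- `A` is realised by colourings of the complete digraphs on `m ^ (2 * h)` points, all of whose
colour classes, shifted by `A e` on the diagonal, factor through `K * m ^ h` indices. -/
def Good {E : Type} [DecidableEq E] (A : E → ℤ) : Prop :=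
  ∃ h K : ℕ, 1 ≤ h ∧ ∀ m : ℕ, 1 ≤ m → ∃ (P : Type) (_ : Fintype P) (_ : DecidableEq P),
    Fintype.card P = m ^ (2 * h) ∧ ∃ c : P → P → E, ∀ e, LR (K * m ^ h) (Rm A c e)

/-- Merging colours. -/
lemma Good.merge {E G : Type} [DecidableEq E] [Fintype E] [DecidableEq G] {A : E → ℤ}
    (hA : Good A) (μ : E → G) : Good (fun g => ∑ e, if μ e = g then A e else 0) := by
  obtain ⟨h, K, hh, H⟩ := hA
  refine ⟨h, Fintype.card E * K, hh, ?_⟩
  intro m hm
  obtain ⟨P, fP, dP, hcard, c, hc⟩ := H m hm
  refine ⟨P, fP, dP, hcard, fun p q => μ (c p q), ?_⟩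
  intro g
  have h1 : LR (Fintype.card E * (K * m ^ h))
      (fun p q => ∑ e ∈ (Finset.univ : Finset E), (if μ e = g then (1 : ℤ) else 0) * Rm A c e p q) :=
    LR.sum _ fun e _ => (hc e).smul _
  refine (h1.mono (by rw [mul_assoc])).congr ?_
  intro p q
  unfold Rm
  by_cases hpq : p = q
  · simp only [hpq, if_true]
    refine Finset.sum_congr rfl fun e _ => ?_
    split_ifs <;> simp
  · simp only [hpq, if_false]
    rw [Finset.sum_eq_single (c p q)]
    · simp
    · intro e _ he
      rw [if_neg (Ne.symm he), mul_zero]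
    · simp

/-- Tensor product of a structure with itself. -/
lemma Good.product {E G : Type} [DecidableEq E] [Fintype E] [DecidableEq G] {A : E → ℤ}
    (hA : Good A) (hsum : ∑ e, A e = 1) (τ : E → E → G) (φ φ' : E → G) (α β : G → ℤ)
    (hrow : ∀ d g, (if φ' d = g then (1 : ℤ) else 0) =
      (∑ c, A c * (if τ c d = g then 1 else 0)) + α g)
    (hcol : ∀ c g, (if φ c = g then (1 : ℤ) else 0) =
      (∑ d, A d * (if τ c d = g then 1 else 0)) + β g) :
    Good (fun g => (∑ c, A c * (if φ c = g then 1 else 0)) + α g) := by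
  obtain ⟨h, K, hh, H⟩ := hA
  refine ⟨2 * h, Fintype.card E * (Fintype.card E * (K * K)) + 2, by omega, ?_⟩
  intro m hm
  obtain ⟨P, fP, dP, hcard, c, hc⟩ := H m hm
  refine ⟨P × P, inferInstance, inferInstance, ?_, ?_⟩
  · rw [Fintype.card_prod, hcard, ← pow_add]; congr 1; ring
  refine ⟨fun p q => if p.1 = q.1 then φ' (c p.2 q.2) else if p.2 = q.2 then φ (c p.1 q.1)
    else τ (c p.1 q.1) (c p.2 q.2), ?_⟩
  intro g
  have h1 : LR (Fintype.card E * (Fintype.card E * ((K * m ^ h) * (K * m ^ h))))
      (fun p q : P × P => ∑ a ∈ (Finset.univ : Finset E), ∑ b ∈ (Finset.univ : Finset E),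
        (if τ a b = g then (1 : ℤ) else 0) * (Rm A c a p.1 q.1 * Rm A c b p.2 q.2)) :=
    LR.sum _ fun a _ => LR.sum _ fun b _ => ((hc a).kron (hc b)).smul _
  have h2 : LR (Fintype.card P) (fun p q : P × P => if p.1 = q.1 then (1 : ℤ) else 0) :=
    LR.of_fun (fun p : P × P => p.1) (fun v q => if v = q.1 then (1 : ℤ) else 0)
  have h3 : LR (Fintype.card P) (fun p q : P × P => if p.2 = q.2 then (1 : ℤ) else 0) :=
    LR.of_fun (fun p : P × P => p.2) (fun v q => if v = q.2 then (1 : ℤ) else 0)
  have h4 := (h1.add (h2.smul (α g))).add (h3.smul (β g))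
  refine (h4.mono ?_).congr ?_
  · rw [hcard]
    have e1 : m ^ (2 * h) = m ^ h * m ^ h := by rw [two_mul, pow_add]
    rw [e1]
    apply le_of_eq
    ring
  · rintro ⟨p, p'⟩ ⟨q, q'⟩
    unfold Rm
    simp only [Prod.mk.injEq]
    by_cases hp : p = q
    · by_cases hp' : p' = q'
      · subst hp; subst hp'
        simp only [and_self, if_true, mul_one]
        have e1 : ∀ a : E, ∑ b, (if τ a b = g then (1 : ℤ) else 0) * (A a * A b) =
            A a * ((if φ a = g then (1 : ℤ) else 0) - β g) := by
          intro a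
          rw [hcol a g, add_sub_cancel_right, Finset.mul_sum]
          exact Finset.sum_congr rfl fun b _ => by ring
        simp only [e1, mul_sub, Finset.sum_sub_distrib]
        rw [← Finset.sum_mul, hsum]
        ring
      · subst hp
        simp only [hp', and_false, if_false, if_true, mul_zero, add_zero, mul_one]
        rw [hrow (c p' q') g]
        congr 1
        refine Finset.sum_congr rfl fun a _ => ?_
        rw [Finset.sum_eq_single (c p' q')]
        · simp [mul_comm]
        · intro b _ hb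
          rw [if_neg (Ne.symm hb)]; ring
        · simp
    · by_cases hp' : p' = q'
      · subst hp'
        simp only [hp, false_and, if_false, if_true, mul_zero, add_zero, mul_one]
        rw [hcol (c p q) g]
        congr 1
        symm
        rw [Finset.sum_eq_single (c p q)]
        · refine Finset.sum_congr rfl fun b _ => ?_
          simp [mul_comm]
        · intro a _ ha
          rw [if_neg (Ne.symm ha)]; simp
        · simp
      · simp only [hp, hp', and_false, if_false, mul_zero, add_zero]
        rw [Finset.sum_eq_single (c p q)]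
        · rw [Finset.sum_eq_single (c p' q')]
          · simp
          · intro b _ hb
            rw [if_neg (Ne.symm hb)]; ring
          · simp
        · intro a _ ha
          rw [if_neg (Ne.symm ha)]; simp
        · simp

/-! ### The universal coefficient vectors -/

/-- Coefficients: `+1` on `Option S`, `-1` on `S`. -/
def U (S : Type) : Option S ⊕ S → ℤ := Sum.elim (fun _ => 1) (fun _ => -1)

/-- Base case: the hexagonal sign structure on `Fin m × Fin m`. -/
lemma good_base : Good (U (Fin 2)) := by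
  refine ⟨1, 5, le_rfl, ?_⟩
  intro m hm
  refine ⟨Fin m × Fin m, inferInstance, inferInstance, ?_, ?_⟩
  · rw [Fintype.card_prod, Fintype.card_fin, mul_one, pow_two]
  refine ⟨fun p q =>
    if (p.1 : ℕ) = q.1 then Sum.inl none
    else if (p.2 : ℕ) = q.2 then Sum.inl (some 0)
    else if (p.1 : ℕ) + p.2 = q.1 + q.2 then Sum.inl (some 1)
    else if ((p.1 : ℕ) < q.1 ∧ (p.2 : ℕ) < q.2) ∨
      (((p.1 : ℕ) < q.1 ∨ (p.2 : ℕ) < q.2) ∧ (q.1 : ℕ) + q.2 < p.1 + p.2) then Sum.inr 0
    else Sum.inr 1, ?_⟩
  have hx : ∀ G : Fin m → Fin m × Fin m → ℤ, LR m (fun p q : Fin m × Fin m => G p.1 q) := by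
    intro G
    have := LR.of_fun (R := ℤ) (fun p : Fin m × Fin m => p.1) G
    rwa [Fintype.card_fin] at this
  have hy : ∀ G : Fin m → Fin m × Fin m → ℤ, LR m (fun p q : Fin m × Fin m => G p.2 q) := by
    intro G
    have := LR.of_fun (R := ℤ) (fun p : Fin m × Fin m => p.2) G
    rwa [Fintype.card_fin] at this
  have hz : ∀ G : ℕ → Fin m × Fin m → ℤ,
      LR (2 * m) (fun p q : Fin m × Fin m => G ((p.1 : ℕ) + p.2) q) := by
    intro G
    have := LR.of_fun (R := ℤ)
      (fun p : Fin m × Fin m => (⟨(p.1 : ℕ) + p.2, by omega⟩ : Fin (2 * m)))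
      (fun v q => G v q)
    rwa [Fintype.card_fin] at this
  have hc : LR 1 (fun _ _ : Fin m × Fin m => (-1 : ℤ)) := by
    have := LR.of_fun (R := ℤ) (fun _ : Fin m × Fin m => ()) (fun _ _ => (-1 : ℤ))
    simpa using this
  have key : ∀ (p q : Fin m × Fin m), (p = q) ↔ ((p.1 : ℕ) = q.1 ∧ (p.2 : ℕ) = q.2) := by
    intro p q
    rw [Prod.ext_iff, Fin.ext_iff, Fin.ext_iff]
  rintro ((_ | e) | e)
  · refine ((hx fun a q => if (a : ℕ) = q.1 then 1 else 0).mono (by rw [pow_one]; omega)).congr ?_
    intro p q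
    unfold Rm U
    simp only [key]
    split_ifs <;> first | rfl | omega | simp_all
  · fin_cases e
    · refine ((hy fun a q => if (a : ℕ) = q.2 then 1 else 0).mono
        (by rw [pow_one]; omega)).congr ?_
      intro p q
      unfold Rm U
      simp only [key]
      split_ifs <;> first | rfl | omega | simp_all
    · refine ((hz fun a q => if a = (q.1 : ℕ) + q.2 then 1 else 0).mono
        (by rw [pow_one]; omega)).congr ?_
      intro p q
      unfold Rm U
      simp only [key]
      split_ifs <;> first | rfl | omega | simp_all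
  · fin_cases e
    · refine (((((hx fun a q => if (a : ℕ) < q.1 then 1 else 0).add
        (hy fun a q => if (a : ℕ) < q.2 then 1 else 0)).add
        (hz fun a q => if (q.1 : ℕ) + q.2 < a then 1 else 0)).add hc).mono
        (by rw [pow_one]; omega)).congr ?_
      intro p q
      unfold Rm U
      simp only [key]
      split_ifs <;> first | rfl | omega | simp_all
    · refine (((((hx fun a q => if (q.1 : ℕ) < a then 1 else 0).add
        (hy fun a q => if (q.2 : ℕ) < a then 1 else 0)).add
        (hz fun a q => if a < (q.1 : ℕ) + q.2 then 1 else 0)).add hc).mono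
        (by rw [pow_one]; omega)).congr ?_
      intro p q
      unfold Rm U
      simp only [key]
      split_ifs <;> first | rfl | omega | simp_all

lemma sum_special {S : Type} [Fintype S] [DecidableEq S] (f : S → ℤ) (a : S) (v : ℤ)
    (hf : ∀ j, j ≠ a → f j = v) : ∑ j, f j = Fintype.card S * v + (f a - v) := by
  have h1 : ∑ j, (f j - v) = f a - v := by
    apply Finset.sum_eq_single a
    · intro j _ hj; rw [hf j hj, sub_self]
    · simp
  rw [Finset.sum_sub_distrib, Finset.sum_const, Finset.card_univ, nsmul_eq_mul] at h1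
  linarith

lemma sum_special2 {S : Type} [Fintype S] [DecidableEq S] (f : S → ℤ) (a b : S) (hab : a ≠ b)
    (v : ℤ) (hf : ∀ j, j ≠ a → j ≠ b → f j = v) :
    ∑ j, f j = Fintype.card S * v + (f a - v) + (f b - v) := by
  have h1 : ∑ j, (f j - v) = (f a - v) + (f b - v) := by
    apply Finset.sum_eq_add a b hab
    · intro j _ hj; rw [hf j hj.1 hj.2, sub_self]
    · simp
    · simp
  rw [Finset.sum_sub_distrib, Finset.sum_const, Finset.card_univ, nsmul_eq_mul] at h1
  linarith

section Step

variable {S : Type} [Fintype S] [DecidableEq S]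

/-- colours of the new structure -/
abbrev G' (S : Type) := Option (Option S) ⊕ Option S

def cy : G' S := Sum.inl none
def cy' : G' S := Sum.inl (some none)
def cpos (i : S) : G' S := Sum.inl (some (some i))
def cx : G' S := Sum.inr none
def cneg (i : S) : G' S := Sum.inr (some i)

/-- The colouring table of the tensor square. -/
def tau (ρ : Equiv.Perm S) : (Option S ⊕ S) → (Option S ⊕ S) → G' S
  | Sum.inl none, _ => cx
  | Sum.inl (some i), Sum.inl none => cneg (ρ.symm i)
  | Sum.inl (some i), Sum.inl (some j) => if i = j then cpos i else cx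
  | Sum.inl (some i), Sum.inr j => if i = j then cy' else if i = ρ j then cneg j else cx
  | Sum.inr i, Sum.inl none => cneg i
  | Sum.inr i, Sum.inl (some j) => if i = j then cy else cx
  | Sum.inr i, Sum.inr j => if i = j then cy else if j = ρ i then cy' else cx

def phi : (Option S ⊕ S) → G' S
  | Sum.inl none => cy'
  | Sum.inl (some i) => cpos i
  | Sum.inr i => cneg i

def phi' : (Option S ⊕ S) → G' S
  | Sum.inl none => cy
  | Sum.inl (some i) => cpos i
  | Sum.inr i => cneg i

omit [DecidableEq S] in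
lemma sum_U (f : Option S ⊕ S → ℤ) :
    ∑ c, U S c * f c = f (Sum.inl none) + ∑ i, f (Sum.inl (some i)) - ∑ i, f (Sum.inr i) := by
  rw [Fintype.sum_sum_type, Fintype.sum_option]
  simp [U, Finset.sum_neg_distrib, sub_eq_add_neg]

lemma tau_row (ρ : Equiv.Perm S) (hρ : ∀ i, ρ i ≠ i) (w : G' S → ℤ) (d : Option S ⊕ S) :
    ∑ c, U S c * w (tau ρ c d) = w (phi' d) + w cx - w cy := by
  rw [sum_U (fun c => w (tau ρ c d))]
  rcases d with (_ | j) | j
  · simp only [tau, phi']
    rw [Equiv.sum_comp ρ.symm (fun i => w (cneg i))]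
    ring
  · simp only [tau, phi']
    rw [sum_special (fun i => w (if i = j then cpos i else cx)) j (w cx)
      (fun i hi => by simp only [hi, if_false]),
      sum_special (fun i => w (if i = j then cy else cx)) j (w cx)
      (fun i hi => by simp only [hi, if_false])]
    simp only [if_true]
    ring
  · simp only [tau, phi']
    rw [sum_special2 (fun i => w (if i = j then cy' else if i = ρ j then cneg j else cx)) j (ρ j)
      (Ne.symm (hρ j)) (w cx) (fun i hi hi' => by simp only [hi, hi', if_false]),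
      sum_special2 (fun i => w (if i = j then cy else if j = ρ i then cy' else cx)) j (ρ.symm j)
      (fun h => hρ j (by conv_lhs => rw [h]; simp)) (w cx)
      (fun i hi hi' => by
        have : ¬ (j = ρ i) := fun h => hi' (by rw [h]; simp)
        simp only [hi, this, if_false])]
    have h1 : ¬ (ρ.symm j = j) := fun h => hρ j (by conv_lhs => rw [← h]; simp)
    simp only [if_true, hρ j, h1, if_false, Equiv.apply_symm_apply]
    ring

lemma tau_col (ρ : Equiv.Perm S) (hρ : ∀ i, ρ i ≠ i) (w : G' S → ℤ) (c : Option S ⊕ S) :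
    ∑ d, U S d * w (tau ρ c d) = w (phi c) + w cx - w cy' := by
  rw [sum_U (fun d => w (tau ρ c d))]
  rcases c with (_ | i) | i
  · simp only [tau, phi]
    ring
  · simp only [tau, phi]
    have h1 : ¬ (i = ρ.symm i) := fun h => hρ i (by conv_lhs => rw [h]; simp)
    rw [sum_special (fun j => w (if i = j then cpos i else cx)) i (w cx)
      (fun j hj => by simp only [Ne.symm hj, if_false]),
      sum_special2 (fun j => w (if i = j then cy' else if i = ρ j then cneg j else cx)) i
      (ρ.symm i) h1 (w cx)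
      (fun j hj hj' => by
        have : ¬ (i = ρ j) := fun h => hj' (by rw [h]; simp)
        simp only [Ne.symm hj, this, if_false])]
    simp only [if_true, h1, if_false, Equiv.apply_symm_apply]
    ring
  · simp only [tau, phi]
    rw [sum_special (fun j => w (if i = j then cy else cx)) i (w cx)
      (fun j hj => by simp only [Ne.symm hj, if_false]),
      sum_special2 (fun j => w (if i = j then cy else if j = ρ i then cy' else cx)) i (ρ i)
      (Ne.symm (hρ i)) (w cx) (fun j hj hj' => by simp only [Ne.symm hj, hj', if_false])]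
    simp only [if_true, Ne.symm (hρ i), if_false]
    ring

lemma good_step (ρ : Equiv.Perm S) (hρ : ∀ i, ρ i ≠ i) (h : Good (U S)) :
    Good (U (Option S)) := by
  have hsum : ∑ e, U S e = 1 := by
    have := sum_U (S := S) (fun _ => 1)
    simpa using this
  have := h.product hsum (tau ρ) phi phi'
    (fun g => (if cy = g then 1 else 0) - (if cx = g then 1 else 0))
    (fun g => (if cy' = g then 1 else 0) - (if cx = g then 1 else 0))
    (fun d g => by
      rw [tau_row ρ hρ (fun x => if x = g then 1 else 0) d]; ring)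
    (fun c g => by
      rw [tau_col ρ hρ (fun x => if x = g then 1 else 0) c]; ring)
  convert this using 1
  funext g
  rw [sum_U (fun c => if phi c = g then 1 else 0)]
  rcases g with (_ | _ | i) | (_ | i) <;>
    simp [phi, cy, cy', cpos, cx, cneg, U]

end Step

lemma good_equiv {S T : Type} [Fintype S] [DecidableEq S] [Fintype T] [DecidableEq T]
    (e : S ≃ T) (h : Good (U S)) : Good (U T) := by
  have := h.merge (Sum.map (Option.map e) e)
  convert this using 1
  funext g
  rcases g with (_ | t) | t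
  · rw [Fintype.sum_sum_type, Fintype.sum_option]
    simp [U]
  · rw [Fintype.sum_sum_type, Fintype.sum_option]
    simp only [U, Sum.map_inl, Option.map_none, Option.map_some, Sum.elim_inl, Sum.map_inr,
      reduceCtorEq, if_false, Sum.inl.injEq, Option.some.injEq, zero_add, Finset.sum_const_zero,
      add_zero]
    rw [Finset.sum_eq_single (e.symm t)]
    · simp
    · intro b _ hb
      rw [if_neg]
      intro hbt; exact hb (by rw [← hbt]; simp)
    · simp
  · rw [Fintype.sum_sum_type, Fintype.sum_option]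
    simp only [U, Sum.map_inl, Option.map_none, Option.map_some, Sum.elim_inl, Sum.map_inr,
      reduceCtorEq, if_false, Sum.inr.injEq, zero_add, Finset.sum_const_zero, Sum.elim_inr]
    rw [Finset.sum_eq_single (e.symm t)]
    · simp
    · intro b _ hb
      rw [if_neg]
      intro hbt; exact hb (by rw [← hbt]; simp)
    · simp

lemma good_fin (n : ℕ) : Good (U (Fin (n + 2))) := by
  induction n with
  | zero => exact good_base
  | succ n ih =>
    have hρ : ∀ i : Fin (n + 2), finRotate (n + 2) i ≠ i := by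
      intro i hi
      rw [finRotate_apply] at hi
      simp at hi
    exact good_equiv (finSuccEquivLast (n := n + 2)).symm (good_step (finRotate (n + 2)) hρ ih)

lemma good_U {S : Type} [Fintype S] [DecidableEq S] (hS : 2 ≤ Fintype.card S) : Good (U S) := by
  obtain ⟨n, hn⟩ := Nat.exists_eq_add_of_le hS
  have e : Fin (n + 2) ≃ S := (Fintype.equivFinOfCardEq (by rw [hn, add_comm])).symm
  exact good_equiv e (good_fin n)

lemma fiber_sum {k : ℕ} (s : Fin k → ℕ) (g : Fin k) :
    ∑ p : (Σ i : Fin k, Fin (s i)), (if p.1 = g then (1 : ℤ) else 0) = s g := by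
  rw [Fintype.sum_sigma]
  rw [Finset.sum_eq_single g]
  · simp
  · intro b _ hb
    simp [hb]
  · simp

lemma good_of_types {k : ℕ} {P S : Type} [Fintype P] [Fintype S] [DecidableEq S]
    (hS : 2 ≤ Fintype.card S) (e : P ≃ Option S) (f : P → Fin k) (f' : S → Fin k) :
    Good (fun g : Fin k => (∑ p : P, if f p = g then (1 : ℤ) else 0) -
      ∑ x : S, if f' x = g then (1 : ℤ) else 0) := by
  have hG := (good_U hS).merge (Sum.elim (fun a => f (e.symm a)) f')
  convert hG using 1
  funext g
  rw [Fintype.sum_sum_type]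
  change _ = (∑ a : Option S, if f (e.symm a) = g then (1 : ℤ) else 0) +
    ∑ x : S, if f' x = g then (-1 : ℤ) else 0
  rw [← Equiv.sum_comp e.symm (fun p => if f p = g then (1 : ℤ) else 0), sub_eq_add_neg,
    ← Finset.sum_neg_distrib]
  congr 1
  refine Finset.sum_congr rfl fun x _ => ?_
  by_cases h : f' x = g
  · rw [if_pos h, if_pos h]
  · rw [if_neg h, if_neg h, neg_zero]

/-- Every integer vector with sum one is realised. -/
lemma good_all {k : ℕ} (A : Fin k → ℤ) (hA : ∑ i, A i = 1) : Good A := by
  obtain ⟨t, ht⟩ : ∃ t : Fin k → ℕ, ∀ i, t i = (A i).natAbs + 2 := ⟨_, fun _ => rfl⟩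
  obtain ⟨s, hs⟩ : ∃ s : Fin k → ℕ, ∀ i, s i = (A i + t i).toNat := ⟨_, fun _ => rfl⟩
  have hst : ∀ i, (s i : ℤ) = A i + t i := by
    intro i
    rw [hs, Int.toNat_of_nonneg]
    rw [ht]; omega
  have hcS : Fintype.card (Σ i : Fin k, Fin (t i)) = ∑ i, t i := by simp
  have hcP : Fintype.card (Σ i : Fin k, Fin (s i)) = ∑ i, s i := by simp
  have hk : 0 < k := by
    rcases Nat.eq_zero_or_pos k with h0 | h0
    · subst h0; simp at hA
    · exact h0
  have hS2 : 2 ≤ Fintype.card (Σ i : Fin k, Fin (t i)) := by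
    rw [hcS]
    calc 2 ≤ t ⟨0, hk⟩ := by rw [ht]; omega
      _ ≤ ∑ i, t i := Finset.single_le_sum (f := t) (fun i _ => Nat.zero_le _) (Finset.mem_univ _)
  have hcard : Fintype.card (Σ i : Fin k, Fin (s i)) =
      Fintype.card (Option (Σ i : Fin k, Fin (t i))) := by
    rw [Fintype.card_option, hcP, hcS]
    have : ((∑ i, s i : ℕ) : ℤ) = ((∑ i, t i + 1 : ℕ) : ℤ) := by
      push_cast
      simp only [hst, Finset.sum_add_distrib, hA]
      ring
    exact_mod_cast this
  have hG := good_of_types hS2 (Fintype.equivOfCardEq hcard) (fun p => p.1) (fun x => x.1)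
  convert hG using 1
  funext g
  rw [fiber_sum, fiber_sum, hst]
  ring

/-! ### Rank and boundedness -/

lemma rank_le_of_LR {F : Type*} [Field F] {P : Type} {s n : ℕ} {M : P → P → F} (h : LR s M)
    (e : Fin n → P) : (Matrix.of (fun i j => M (e i) (e j)) : Matrix (Fin n) (Fin n) F).rank ≤ s := by
  classical
  obtain ⟨I, fI, hI, X, Y, hXY⟩ := h
  have h1 : (Matrix.of (fun i j => M (e i) (e j)) : Matrix (Fin n) (Fin n) F) =
      (Matrix.of (fun i k => X (e i) k) : Matrix (Fin n) I F) *
      (Matrix.of (fun k j => Y k (e j)) : Matrix I (Fin n) F) := by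
    ext i j
    simp [Matrix.mul_apply, hXY]
  rw [h1]
  exact (Matrix.rank_mul_le_left _ _).trans ((Matrix.rank_le_card_width _).trans hI)

/-- The set of sizes of `L`-matrices of rank at most `r` is bounded. -/
lemma bddAbove_sizes {F : Type*} [Field F] (L : Finset F) (h0 : (0 : F) ∉ L) (r : ℕ) :
    BddAbove {n : ℕ | ∃ M : Matrix (Fin n) (Fin n) F, IsLMatrix L M ∧ M.rank ≤ r} := by
  classical
  refine ⟨(L.card + 1) ^ r, ?_⟩
  rintro n ⟨M, ⟨hd, ho⟩, hr⟩
  -- choose a set of columns spanning the column space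
  obtain ⟨b, hb1, hb2, hb3⟩ := exists_linearIndependent F (Set.range M.col)
  have hfin : b.Finite := (Set.finite_range _).subset hb1
  have : Fintype b := hfin.fintype
  have hcard : Fintype.card b ≤ r := by
    rw [← Set.toFinset_card, ← finrank_span_set_eq_card hb3, hb2, ← Matrix.rank_eq_finrank_span_cols]
    exact hr
  choose idx hidx using fun v : b => hb1 v.2
  -- rows agreeing on the chosen columns are equal
  have hrow : ∀ i i' : Fin n, (∀ v : b, M i (idx v) = M i' (idx v)) → i = i' := by
    intro i i' hii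
    by_contra hne
    have hall : ∀ v ∈ Submodule.span F (Set.range M.col), v i = v i' := by
      rw [← hb2]
      intro v hv
      induction hv using Submodule.span_induction with
      | mem x hx =>
        have := hii ⟨x, hx⟩
        have hx' := hidx ⟨x, hx⟩
        simp only at hx'
        rw [← hx']
        exact this
      | zero => rfl
      | add x y _ _ hx hy => rw [Pi.add_apply, Pi.add_apply, hx, hy]
      | smul a x _ hx => rw [Pi.smul_apply, Pi.smul_apply, hx]
    have h1 := hall (M.col i) (Submodule.subset_span ⟨i, rfl⟩)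
    have h2 : M i i = M i' i := h1
    rw [hd] at h2
    exact h0 (h2 ▸ ho i' i (Ne.symm hne))
  let f : Fin n → (b → (insert 0 L : Finset F)) := fun i v => ⟨M i (idx v), by
    by_cases h : i = idx v
    · rw [← h, hd]; exact Finset.mem_insert_self _ _
    · exact Finset.mem_insert_of_mem (ho _ _ h)⟩
  have hf : Function.Injective f := by
    intro i i' h
    apply hrow
    intro v
    have := congrFun h v
    simpa [f] using this
  have hc := Fintype.card_le_of_injective f hf
  rw [Fintype.card_fin, Fintype.card_fun, Fintype.card_coe,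
    Finset.card_insert_of_notMem h0] at hc
  exact hc.trans (Nat.pow_le_pow_right (Nat.succ_pos _) hcard)

/-- Full positive answer: a primitive linear relation forces `N(r, L) = Ω(r²)`. -/
theorem result : ∀ (F : Type*) [Field F] (L : Finset F), (0 : F) ∉ L → HasPrimitiveRelation L →
    ∃ c : ℝ, 0 < c ∧ ∃ r₀ : ℕ, ∀ r : ℕ, r₀ ≤ r → c * (r : ℝ) ^ 2 ≤ (N r L : ℝ) := by
  classical
  intro F _ L h0 ⟨A, hA0, hA1⟩
  set k := L.card with hk
  let ε : L ≃ Fin k := L.equivFin
  have hkpos : 0 < k := by
    rw [hk, Finset.card_pos]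
    by_contra hne
    rw [Finset.not_nonempty_iff_eq_empty] at hne
    rw [hne] at hA1; simp at hA1
  let B : Fin k → ℤ := fun i => A (ε.symm i)
  have hB : ∑ i, B i = 1 := by
    rw [← hA1, ← Finset.sum_coe_sort L A]
    exact Equiv.sum_comp ε.symm (fun a : L => A a)
  obtain ⟨h, K, hh, H⟩ := good_all B hB
  set C : ℕ := k * K + 1 with hC
  -- the main construction
  have main : ∀ m r : ℕ, 1 ≤ m → C * m ^ h ≤ r → m ^ (2 * h) ≤ N r L := by
    intro m r hm hr
    obtain ⟨P, fP, dP, hcard, c, hc⟩ := H m hm
    have e : Fin (m ^ (2 * h)) ≃ P := (Fintype.equivFinOfCardEq hcard).symm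
    have hLR : LR ((Finset.univ : Finset (Fin k)).card * (K * m ^ h))
        (fun p q => ∑ i ∈ (Finset.univ : Finset (Fin k)),
          ((ε.symm i : L) : F) * ((Rm B c i p q : ℤ) : F)) :=
      LR.sum _ fun i _ => ((hc i).cast).smul _
    have hrank := rank_le_of_LR hLR e
    apply le_csSup (bddAbove_sizes L h0 r)
    refine ⟨_, ⟨?_, ?_⟩, hrank.trans ?_⟩
    · intro i
      simp only [Matrix.of_apply, Rm, if_true, B]
      rw [Equiv.sum_comp ε.symm (fun a : L => (a : F) * ((A a : ℤ) : F)),
        Finset.sum_coe_sort L (fun a => a * ((A a : ℤ) : F)), ← hA0]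
      exact Finset.sum_congr rfl fun a _ => mul_comm _ _
    · intro i j hij
      have hne : e i ≠ e j := fun h => hij (e.injective h)
      simp only [Matrix.of_apply, Rm, hne, if_false]
      rw [Finset.sum_eq_single (c (e i) (e j))]
      · simp
      · intro b _ hb
        rw [if_neg (Ne.symm hb)]; simp
      · simp
    · rw [Finset.card_univ, Fintype.card_fin]
      refine le_trans ?_ hr
      rw [hC, ← mul_assoc]
      exact Nat.mul_le_mul_right _ (Nat.le_succ _)
  refine ⟨1 / ((C : ℝ) ^ 2 * 4 ^ h), by positivity, C, ?_⟩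
  intro r hr
  set m := Nat.findGreatest (fun m => C * m ^ h ≤ r) r with hm
  have hCpos : 0 < C := Nat.succ_pos _
  have h1 : C * 1 ^ h ≤ r := by rw [one_pow, mul_one]; exact hr
  have hm1 : 1 ≤ m := Nat.le_findGreatest (by omega) h1
  have hm2 : C * m ^ h ≤ r := Nat.findGreatest_spec (P := fun m => C * m ^ h ≤ r)
    (m := 1) (by omega) h1
  have hm3 : r < C * (m + 1) ^ h := by
    by_contra hcon
    rw [not_lt] at hcon
    have hle : m + 1 ≤ r := by
      calc m + 1 ≤ (m + 1) ^ h := Nat.le_self_pow (by omega) _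
        _ ≤ C * (m + 1) ^ h := Nat.le_mul_of_pos_left _ hCpos
        _ ≤ r := hcon
    have := Nat.le_findGreatest (P := fun m => C * m ^ h ≤ r) hle hcon
    omega
  have hN := main m r hm1 hm2
  have h4 : (r : ℝ) ≤ C * (2 ^ h * (m : ℝ) ^ h) := by
    have h5 : r ≤ C * (2 ^ h * m ^ h) := by
      refine hm3.le.trans (Nat.mul_le_mul_left _ ?_)
      rw [← mul_pow]
      exact Nat.pow_le_pow_left (by omega) h
    exact_mod_cast h5
  have h6 : (r : ℝ) ^ 2 ≤ (C : ℝ) ^ 2 * 4 ^ h * (m : ℝ) ^ (2 * h) := by
    calc (r : ℝ) ^ 2 ≤ (C * (2 ^ h * (m : ℝ) ^ h)) ^ 2 := by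
          apply pow_le_pow_left₀ (by positivity) h4
      _ = (C : ℝ) ^ 2 * 4 ^ h * (m : ℝ) ^ (2 * h) := by
          rw [mul_pow, mul_pow, ← pow_mul, ← pow_mul, mul_comm h 2, pow_mul 2 2 h]
          norm_num
          ring
  have h7 : ((m ^ (2 * h) : ℕ) : ℝ) ≤ (N r L : ℝ) := by exact_mod_cast hN
  rw [Nat.cast_pow] at h7
  rw [div_mul_eq_mul_div, one_mul, div_le_iff₀ (by positivity)]
  calc (r : ℝ) ^ 2 ≤ (C : ℝ) ^ 2 * 4 ^ h * (m : ℝ) ^ (2 * h) := h6
    _ ≤ (C : ℝ) ^ 2 * 4 ^ h * (N r L : ℝ) := by gcongr
    _ = (N r L : ℝ) * ((C : ℝ) ^ 2 * 4 ^ h) := by ring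

end Pool.Agent.Results.MP_22c17e_co.PrimitiveQuadratic
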